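import Mathlib
import Pool.Agent.H934.Defs
import Pool.Agent.H934.Normalise

set_option autoImplicit false

open CategoryTheory CategoryTheory.Limits CategoryTheory.Pretriangulated

namespace Pool.Agent.Results.MP_228983_ag.OneOrbit

universe v u

open Pool.Agent.H934

/-- **Serre-invariant stability conditions form exactly one orbit.** Let `T` be a complex linear
triangulated category of finite type with a Serre functor `S` such that `S³(E) ≅ E[7]` for all
objects `E`, whose numerical Grothendieck group has rank two and negative definite Euler form. (The
Kuznetsov component of the Veronese double cone is such a category.) Let `σ` be a Serre-invariant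
stability condition on `T`. Then the Serre-invariant stability conditions are exactly those in the
orbit of `σ` under the universal cover of the group of real matrices of size two with positive
determinant. -/
theorem result {T : Type u} [Category.{v} T] [Preadditive T] [HasZeroObject T] [HasShift T ℤ]
    [∀ n : ℤ, (shiftFunctor T n).Additive] [Pretriangulated T] [IsTriangulated T] [Linear ℂ T]
    [∀ n : ℤ, (shiftFunctor T n).Linear ℂ] (𝒮 : SerreFunctor T) (hT : FracCY T 𝒮 7)
    (σ : StabCond T) (hσ : SerreInvariant 𝒮 σ) (τ : StabCond T) :
    SerreInvariant 𝒮 τ ↔ SameOrbit σ τ :=
  ⟨fun hτ => same_orbit hT (Or.inr rfl) σ τ hσ hτ, fun h => serreInvariant_of_sameOrbit hσ h⟩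

end Pool.Agent.Results.MP_228983_ag.OneOrbit
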